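import Mathlib
import Pool.Agent.H723R2.LSWDens
import Pool.Agent.X62.AD.Side
import Pool.Agent.Results.MP_d02c56_nt.AlmostPrimesAllModuli

set_option autoImplicit false

/-!
The basins of the cycles of the map `T_3` on the integers and all real additive functions; the search for
further cycles among few starting values.
-/

namespace Pool.Agent.Results.MP_dee342_nt.AdditiveFunctions

open Filter Topology Finset

/-- the map `T_3` of the problem -/
def T₃ (x : ℤ) : ℤ := if x % 2 = 0 then x / 2 else (3 * x + 1) / 2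

/-- The cycles of `T_3` in the integers of sign `s`, each represented by its element of least absolute
value. -/
def IsCycleRep (s a : ℤ) : Prop :=
  0 < s * a ∧ (∃ p : ℕ, 0 < p ∧ T₃^[p] a = a) ∧ ∀ j : ℕ, s * a ≤ s * T₃^[j] a

/-- the orbit of `x` reaches a cycle, and an element of this cycle is in `F` -/
def EndsIn (F : Set ℤ) (x : ℤ) : Prop := ∃ k p : ℕ, 1 ≤ p ∧ T₃^[k + p] x = T₃^[k] x ∧ T₃^[k] x ∈ F

/-- The orbit of `n` visits `a` for the first time at time `k`. -/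
def Visits (a : ℤ) (k : ℕ) (n : ℤ) : Prop := T₃^[k] n = a ∧ ∀ i < k, T₃^[i] n ≠ a

/-- Among the integers of sign `s` the set `S` has natural density `d`. -/
def HasDensity (s : ℤ) (S : Set ℤ) (d : ℝ) : Prop :=
  Tendsto (fun N : ℕ => ({n : ℤ | 0 < s * n ∧ s * n ≤ N ∧ n ∈ S}.ncard : ℝ) / N) atTop (𝓝 d)

/-- `2 log |n| / log (4/3) + x * log 3 * √(2 log |n| / (log (4/3))^3)` -/
noncomputable def bound (x : ℝ) (n : ℤ) : ℝ :=
  2 / Real.log (4 / 3) * Real.log |(n : ℝ)| +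
    x * (Real.log 3 * Real.sqrt (2 * Real.log |(n : ℝ)| / Real.log (4 / 3) ^ 3))

/-- The distribution function of the standard normal law. -/
noncomputable def Phi (x : ℝ) : ℝ :=
  ProbabilityTheory.cdf (ProbabilityTheory.gaussianReal 0 1) x

/-- `f` is an additive function -/
def Additive (f : ℕ → ℝ) : Prop := ∀ m n : ℕ, m.Coprime n → f (m * n) = f m + f n

/-- `|n|` has at most `log log |n| + y √(log log |n|)` different prime factors -/
def FewPrimes (y : ℝ) (n : ℤ) : Prop :=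
  (n.natAbs.primeFactors.card : ℝ) ≤ Real.log (Real.log |(n : ℝ)|) + y * Real.sqrt (Real.log (Real.log |(n : ℝ)|))

open scoped Classical in
/-- AMONG THE INTEGERS OF SIGN `s` THE SET `S` HAS THE FREQUENCY `l`, INDEPENDENTLY OF ALL ADDITIVE
FUNCTIONS, with multiplicative weights: for all `d`, `c, ε > 0`, `x₀` and all coprime residue classes `r`
modulo `Q` and all large `N`: for every multiplicative `h` with `0 ≤ h ≤ 1` and
`∑_{p ≤ x} h p ≥ c x / log x` for `x ≥ x₀`, every complex multiplicative `g` with `|g| ≤ h`, all real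
additive functions `f₁, ..., f_d` and all intervals `J₁, ..., J_d`, the sum of `g n` over the `n ≤ N`,
`n ≡ r (mod Q)`, with `f_j n ∈ J_j` (`j = 1, ..., d`) and `s n ∈ S` is `l` times the sum without the
condition `s n ∈ S`, up to `ε ∑_{n ≤ N} h n`. -/
def Weighted (s : ℤ) (S : Set ℤ) (l : ℝ) : Prop := ∀ (d : ℕ) (c : ℝ) (x₀ : ℕ) (ε : ℝ) (Q r : ℕ), 0 < c →
  0 < ε → 1 ≤ Q → r.Coprime Q → ∃ N₀ : ℕ, ∀ N : ℕ, N₀ ≤ N → ∀ h : ArithmeticFunction ℝ, h.IsMultiplicative →
    (∀ n, 0 ≤ h n ∧ h n ≤ 1) →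
    (∀ x : ℕ, x₀ ≤ x → c * (x / Real.log x) ≤ ∑ p ∈ (Icc 1 x).filter Nat.Prime, h p) →
    ∀ g : ArithmeticFunction ℂ, g.IsMultiplicative → (∀ n, ‖g n‖ ≤ h n) →
    ∀ f : Fin d → ℕ → ℝ, (∀ j, Additive (f j)) → ∀ J : Fin d → Set ℝ, (∀ j, (J j).OrdConnected) →
    ‖∑ n ∈ (Icc 1 N).filter (fun n => n % Q = r % Q ∧ (∀ j, f j n ∈ J j) ∧ s * (n : ℤ) ∈ S), g n -
      l * ∑ n ∈ (Icc 1 N).filter (fun n => n % Q = r % Q ∧ ∀ j, f j n ∈ J j), g n‖ ≤
      ε * ∑ n ∈ Icc 1 N, h n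

/-- the same for numbers of integers in multiplicative sets: for all `d`, `c, ε > 0`, `x₀`, coprime
residue classes `r` modulo `Q` and all large `N`: for every set `E` of positive integers with `1 ∈ E` and
`m n ∈ E ↔ m ∈ E ∧ n ∈ E` for coprime `m, n` and at least `c x / log x` primes up to `x` for `x ≥ x₀`, all
real additive functions `f_j` and all intervals `J_j` -/
def Counting (s : ℤ) (S : Set ℤ) (l : ℝ) : Prop := ∀ (d : ℕ) (c : ℝ) (x₀ : ℕ) (ε : ℝ) (Q r : ℕ), 0 < c →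
  0 < ε → 1 ≤ Q → r.Coprime Q → ∃ N₀ : ℕ, ∀ N : ℕ, N₀ ≤ N → ∀ E : Set ℕ,
    (0 ∉ E ∧ 1 ∈ E ∧ ∀ m n : ℕ, m.Coprime n → (m * n ∈ E ↔ m ∈ E ∧ n ∈ E)) →
    (∀ x : ℕ, x₀ ≤ x → c * (x / Real.log x) ≤ {p : ℕ | p.Prime ∧ p ≤ x ∧ p ∈ E}.ncard) →
    ∀ f : Fin d → ℕ → ℝ, (∀ j, Additive (f j)) → ∀ J : Fin d → Set ℝ, (∀ j, (J j).OrdConnected) →
    |({n : ℕ | n ≤ N ∧ n ∈ E ∧ n % Q = r % Q ∧ (∀ j, f j n ∈ J j) ∧ s * (n : ℤ) ∈ S}.ncard : ℝ) -
      l * {n : ℕ | n ≤ N ∧ n ∈ E ∧ n % Q = r % Q ∧ ∀ j, f j n ∈ J j}.ncard| ≤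
      ε * {n : ℕ | n ≤ N ∧ n ∈ E}.ncard

/-- `S` has the frequency `l` independently of all additive functions, with weights and in multiplicative
sets, and the elements `n` of `S` with at most `log log |n| + y √(log log |n|)` prime factors have the
natural density `l Φ(y)` among the integers of sign `s` -/
def Independent (s : ℤ) (S : Set ℤ) (l : ℝ) : Prop :=
  Weighted s S l ∧ Counting s S l ∧ ∀ y : ℝ, HasDensity s {n | n ∈ S ∧ FewPrimes y n} (l * Phi y)

open Pool.Agent.X62.AD (RA RA_full RA_sets RA_ek RA_hit RA_not RA_congr RA_inv' rel_entr_k lln2 side_dn natAbs_side)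

open Pool.Agent.H723R2.LSW (T Mer Wild)

theorem T_eq : T₃ = T := rfl

theorem rel_of {s : ℤ} (hs : s = 1 ∨ s = -1) {S : Set ℤ} {l : ℝ} (h : RA (fun n : ℕ => s * (n : ℤ) ∈ S) l) :
    Independent s S l := by
  refine ⟨fun d c x₀ ε Q r hc hε hQ hr => RA_full h d c x₀ ε Q r hc hε hQ hr,
    fun d c x₀ ε Q r hc hε hQ hr => RA_sets h d c x₀ ε Q r hc hε hQ hr, fun y => ?_⟩
  refine side_dn hs (Pool.Agent.H499R2.LT.Dn_iff (fun n _ => ?_) (RA_ek h y))
  show _ ↔ s * (n : ℤ) ∈ S ∧ FewPrimes y (s * (n : ℤ))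
  unfold FewPrimes
  rw [natAbs_side hs, Real.log_abs, Pool.Agent.W26.HN.log_side hs]

/-- relative frequency of an invariant set -/
theorem inv_rel {s : ℤ} (hs : s = 1 ∨ s = -1) {S : Set ℤ} (hS : ∀ n : ℤ, n ∈ S ↔ T n ∈ S) {d : ℝ}
    (h : HasDensity s S d) : Independent s S d :=
  rel_of hs (RA_inv' hs hS h)

theorem log_abs {s : ℤ} (hs : s = 1 ∨ s = -1) (n : ℕ) : Real.log |((s * (n : ℤ) : ℤ) : ℝ)| = Real.log n := by
  rw [Real.log_abs, Pool.Agent.W26.HN.log_side hs]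

theorem endsIn_T (F : Set ℤ) (x : ℤ) : EndsIn F x ↔ EndsIn F (T₃ x) := by
  constructor
  · rintro ⟨k, p, hp, h1, h2⟩
    refine ⟨k + (p - 1), p, hp, ?_, ?_⟩
    · have e1 : T₃^[k + (p - 1) + p] (T₃ x) = T₃^[k + p + p] x := by
        rw [← Function.iterate_succ_apply]
        congr 1
        omega
      have e2 : T₃^[k + (p - 1)] (T₃ x) = T₃^[k + p] x := by
        rw [← Function.iterate_succ_apply]
        congr 1
        omega
      rw [e1, e2, show k + p + p = p + (k + p) by omega, Function.iterate_add_apply, h1,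
        ← Function.iterate_add_apply, show p + k = k + p by omega, h1]
    · have e2 : T₃^[k + (p - 1)] (T₃ x) = T₃^[k + p] x := by
        rw [← Function.iterate_succ_apply]
        congr 1
        omega
      rw [e2, h1]
      exact h2
  · rintro ⟨k, p, hp, h1, h2⟩
    refine ⟨k + 1, p, hp, ?_, ?_⟩
    · rw [show k + 1 + p = (k + p) + 1 by omega, Function.iterate_succ_apply, Function.iterate_succ_apply]
      exact h1
    · rw [Function.iterate_succ_apply]; exact h2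

/-- a periodic point's merging class -/
theorem endsIn_single {a : ℤ} (ha : ∃ p : ℕ, 0 < p ∧ T₃^[p] a = a) (x : ℤ) : EndsIn {a} x ↔ ∃ k, T₃^[k] x = a := by
  constructor
  · rintro ⟨k, p, _, _, h⟩
    exact ⟨k, h⟩
  · rintro ⟨k, hk⟩
    obtain ⟨p, hp, hpa⟩ := ha
    refine ⟨k, p, hp, ?_, hk⟩
    rw [Nat.add_comm, Function.iterate_add_apply, hk, hpa]

theorem mer_reach {a : ℤ} (ha : ∃ p : ℕ, 0 < p ∧ T₃^[p] a = a) (n : ℤ) : Mer n a ↔ ∃ k, T₃^[k] n = a := by
  obtain ⟨p, hp, hpa⟩ := ha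
  constructor
  · rintro ⟨i, j, hij⟩
    have hcp : ∀ m, T₃^[p * m] a = a := by
      intro m
      rw [Function.iterate_mul]
      exact Function.iterate_fixed hpa m
    refine ⟨p * j - j + i, ?_⟩
    have hle : j ≤ p * j := Nat.le_mul_of_pos_left j hp
    have hij' : T₃^[i] n = T₃^[j] a := hij
    rw [Function.iterate_add_apply, hij', ← Function.iterate_add_apply,
      Nat.sub_add_cancel hle, hcp]
  · rintro ⟨k, hk⟩; exact ⟨k, 0, hk⟩

theorem wild_iff (n : ℤ) : Wild n ↔ ¬ EndsIn Set.univ n := by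
  constructor
  · rintro h ⟨k, p, hp, h1, _⟩
    have := h _ _ h1
    omega
  · intro h i j hij
    by_contra hne
    apply h
    have hij' : T₃^[i] n = T₃^[j] n := hij
    rcases lt_or_gt_of_ne hne with hlt | hlt
    · exact ⟨i, j - i, by omega, by rw [show i + (j - i) = j by omega]; exact hij'.symm, trivial⟩
    · exact ⟨j, i - j, by omega, by rw [show j + (i - j) = i by omega]; exact hij', trivial⟩

/-- the visits of a cycle representative -/
theorem visits_rel {s : ℤ} (hs : s = 1 ∨ s = -1) {a : ℤ} (ha : IsCycleRep s a) {d : ℝ}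
    (h : HasDensity s {n | Mer n a} d) :
    (∀ (q : ℕ) (b : ℤ), 1 ≤ q →
      Independent s {n | ∃ k : ℕ, Visits a k n ∧ (k : ℤ) ≡ b [ZMOD q]} (d / q) ∧
      ∀ x : ℝ, Independent s {n | ∃ k : ℕ, Visits a k n ∧ (k : ℝ) ≤ bound x n ∧ (k : ℤ) ≡ b [ZMOD q]}
        (d * AdditiveFunctions.Phi x / q)) ∧
    (∀ η : ℝ, 0 < η → Independent s {n | ∃ k : ℕ, Visits a k n ∧
      |(k : ℝ) - 2 / Real.log (4 / 3) * Real.log (|(n : ℝ)|)| ≤ η * Real.log |(n : ℝ)|} d) := by
  have hmr := mer_reach ha.2.1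
  obtain ⟨ha0, ⟨p, hp, hpa⟩, hmin⟩ := ha
  -- the representative is odd
  have hodd : a % 2 = 1 := by
    by_contra hcon
    have h1 : a % 2 = 0 := by omega
    have h2 := hmin 1
    rw [Function.iterate_one] at h2
    have h3 : T₃ a = a / 2 := by
      show (if a % 2 = 0 then a / 2 else (3 * a + 1) / 2) = a / 2
      rw [if_pos h1]
    rw [h3] at h2
    rcases hs with rfl | rfl <;> omega
  have hF : ∀ y ∈ ({a} : Finset ℤ), y % 2 = 1 := fun y hy => by
    rw [Finset.mem_singleton] at hy; rw [hy]; exact hodd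
  have hper : Function.IsPeriodicPt T p a := hpa
  have hB : Pool.Agent.Y964.LW.Bd ({a} : Finset ℤ) (∑ i ∈ range p, (T^[i] a).natAbs) := by
    intro y hy i
    rw [Finset.mem_singleton] at hy
    rw [hy]
    show |T^[i] a| ≤ _
    rw [← hper.iterate_mod_apply i]
    have h2 : (T^[i % p] a).natAbs ≤ ∑ i ∈ range p, (T^[i] a).natAbs :=
      Finset.single_le_sum (f := fun i => (T^[i] a).natAbs)
        (fun _ _ => Nat.zero_le _) (Finset.mem_range.2 (Nat.mod_lt _ hp))
    rw [Int.abs_eq_natAbs]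
    exact_mod_cast h2
  have hE : Pool.Agent.H499R2.ND.Dn (fun n : ℕ => ∃ k : ℕ, Pool.Agent.W26.HN.E {a} k (s * n)) d := by
    refine Pool.Agent.H499R2.LT.Dn_iff (fun n _ => ?_) (Pool.Agent.Y964.LW.dn_side hs h)
    show Mer (s * (n : ℤ)) a ↔ ∃ k : ℕ, Pool.Agent.W26.HN.E {a} k (s * n)
    rw [hmr]
    symm
    constructor
    · rintro ⟨k, hk⟩; exact ⟨k, Finset.mem_singleton.1 hk.1⟩
    · rintro ⟨k, hk⟩
      obtain ⟨j, _, hj⟩ := Pool.Agent.W26.HN.exists_E (F := {a}) (x := s * (n : ℤ)) (k := k)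
        (Finset.mem_singleton.2 hk)
      exact ⟨j, hj⟩
  have hV : ∀ (k : ℕ) (n : ℤ), Pool.Agent.W26.HN.E {a} k n ↔ Visits a k n := by
    intro k n
    unfold Pool.Agent.W26.HN.E Visits
    constructor
    · rintro ⟨h1, h2⟩
      exact ⟨Finset.mem_singleton.1 h1, fun i hi h3 => h2 i hi (Finset.mem_singleton.2 h3)⟩
    · rintro ⟨h1, h2⟩
      exact ⟨Finset.mem_singleton.2 h1, fun i hi h3 => h2 i hi (Finset.mem_singleton.1 h3)⟩
  obtain ⟨h0, h1, hRL, hlaw⟩ := rel_entr_k hs hF hB hE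
  refine ⟨fun q b hq => ⟨?_, fun x => ?_⟩, fun η hη => ?_⟩
  · refine rel_of hs (RA_congr 0 (fun n _ => exists_congr fun k => ?_) (hlaw q b 0 hq).2.1)
    rw [hV]
  · have h5 := ((hlaw q b 0 hq).2.2 x).2
    have e : d / (q : ℝ) * Pool.Agent.H499R2.ND.Phi x = d * AdditiveFunctions.Phi x / q := by
      unfold AdditiveFunctions.Phi
      rw [← Pool.Agent.H499R2.ND.phi_cdf]
      ring
    rw [e] at h5
    refine rel_of hs (RA_congr 0 (fun n _ => exists_congr fun k => ?_) h5)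
    rw [hV]
    unfold bound
    rw [log_abs hs]
    exact Iff.rfl
  · have hrr := Pool.Agent.H499R2.HL.rr_pos
    have hl3 : 0 < Real.log 3 := Real.log_pos (by norm_num)
    have h6 := lln2 (P := fun n : ℕ => ∃ k, Pool.Agent.W26.HN.E {a} k (s * (n : ℤ)))
      (f := fun k n => Pool.Agent.W26.HN.E {a} k (s * (n : ℤ)))
      (g := fun k _ => (k : ℝ))
      (α := 2 / Real.log (4 / 3))
      (σ := Real.log 3 * Pool.Agent.H499R2.HL.rr) (δ := d) (η := η) (by positivity) h0 h1 hη (fun x => by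
        have h7 := ((hlaw 1 0 0 le_rfl).2.2 x).2
        have e1 : d / ((1 : ℕ) : ℝ) * Pool.Agent.H499R2.ND.Phi x = d * Pool.Agent.H499R2.ND.Phi x := by simp
        rw [e1] at h7
        refine RA_congr 0 (fun n _ => exists_congr fun k => and_congr_right fun _ => ?_) h7
        rw [← Pool.Agent.Y964.LW.bk_thr]
        simp [Int.modEq_one]) hRL (fun n h => h)
    refine rel_of hs (RA_congr 0 (fun n _ => exists_congr fun k => ?_) h6)
    rw [hV, log_abs hs]

open Pool.Agent.Results.MP_d02c56_nt.AlmostPrimesAllModuli (C third) in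
/-- invariance under `T_3` implies invariance under the Collatz map -/
theorem inv_C {S : Set ℤ} (hS : ∀ n : ℤ, n ∈ S ↔ T₃ n ∈ S) :
    Pool.Agent.Results.MP_d02c56_nt.AlmostPrimesAllModuli.Invariant S := by
  intro x
  by_cases h : x % 2 = 0
  · have e : T₃ x = C x := by
      unfold T₃ C
      rw [if_pos h, if_pos h]
    rw [← e]; exact hS x
  · have e1 : C x = 3 * x + 1 := by
      unfold C
      rw [if_neg h]
    have e2 : T₃ (3 * x + 1) = T₃ x := by
      unfold T₃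
      rw [if_neg h, if_pos (by omega)]
    rw [e1, hS x, hS (3 * x + 1), e2]

theorem dens_inv {s : ℤ} (hs : s = 1 ∨ s = -1) {S : Set ℤ} (hS : ∀ n : ℤ, n ∈ S ↔ T₃ n ∈ S) :
    ∃ δ : ℝ, HasDensity s S δ ∧ 0 ≤ δ ∧ ((∃ x ∈ S, 0 < s * x) → 0 < δ) := by
  obtain ⟨δ, h1, h2⟩ := Pool.Agent.Results.MP_d02c56_nt.AlmostPrimesAllModuli.HD_iff hs (inv_C hS)
  refine ⟨δ, h2, ge_of_tendsto' h2 fun N => by positivity, ?_⟩
  rintro ⟨x, hx, hx0⟩
  exact Pool.Agent.H499R2.ND.one_pos hs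
    (Pool.Agent.Results.MP_d02c56_nt.AlmostPrimesAllModuli.inv_of (inv_C hS)) hx hx0 h1

/-- finitely many periodic points -/
theorem fin_per {s : ℤ} {F : Set ℤ} (hF : F.Finite) (h : ∀ x : ℤ, 0 < s * x → (∃ p : ℕ, 1 ≤ p ∧ T₃^[p] x = x) →
    EndsIn F x) : {x : ℤ | 0 < s * x ∧ ∃ p : ℕ, 1 ≤ p ∧ T₃^[p] x = x}.Finite := by
  classical
  have h1 : ∀ y : ℤ, ∃ O : Finset ℤ, (∃ p : ℕ, 1 ≤ p ∧ T₃^[p] y = y) → ∀ k, T₃^[k] y ∈ O := by
    intro y
    by_cases hy : ∃ p : ℕ, 1 ≤ p ∧ T₃^[p] y = y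
    · obtain ⟨p, hp, hpy⟩ := hy
      have hper : Function.IsPeriodicPt T₃ p y := hpy
      refine ⟨(range p).image fun i => T₃^[i] y, fun _ k => ?_⟩
      rw [← hper.iterate_mod_apply k]
      exact Finset.mem_image_of_mem _ (Finset.mem_range.2 (Nat.mod_lt _ hp))
    · exact ⟨∅, fun h => absurd h hy⟩
  choose O hO using h1
  refine (hF.biUnion (t := fun y => ((O y : Finset ℤ) : Set ℤ)) fun y _ => (O y).finite_toSet).subset ?_
  rintro x ⟨hx, p, hp, hpx⟩
  obtain ⟨k, p', hp', h2, h3⟩ := h x hx ⟨p, hp, hpx⟩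
  rw [Set.mem_iUnion₂]
  refine ⟨_, h3, ?_⟩
  have hcp : ∀ m, T₃^[p * m] x = x := by
    intro m
    rw [Function.iterate_mul]
    exact Function.iterate_fixed hpx m
  have hle : k ≤ p * k := Nat.le_mul_of_pos_left k hp
  have h4 := hO (T₃^[k] x) ⟨p', hp', by rw [← Function.iterate_add_apply, Nat.add_comm]; exact h2⟩ (p * k - k)
  rw [← Function.iterate_add_apply, Nat.sub_add_cancel hle, hcp] at h4
  exact h4

/-- THE CYCLES OF `T_3`, THEIR BASINS, ALL ADDITIVE FUNCTIONS, AND SPARSE SETS OF STARTING VALUES.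
Let `s = 1` or `s = -1`.
(1) The integers of sign `s` whose orbits reach the cycle of the representative `a` have a natural density
`δ a > 0`, and this is their frequency, independently of all real additive functions of `|n|` (in the sense
of `Independent`: uniformly in any number `d` of additive functions, in the intervals of their values and in
the multiplicative weights; and jointly with the Erdős–Kac law). Those which visit `a` for the first time at
a time `≡ b` modulo `q` have frequency `δ a / q`, and those for which this time is, moreover, at most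
`2 log |n| / log (4/3) + x log 3 √(2 log |n| / (log (4/3))^3)` have frequency `δ a Φ(x) / q`; for every
`η > 0` those for which it is `(2 / log (4/3) ± η) log |n|` have frequency `δ a`.
(2) The integers of sign `s` whose orbits reach a cycle have the frequency `D = ∑ δ a` (sum over all cycles of
integers of sign `s`), again independently of all additive functions; `D = 1` iff all orbits of integers of
sign `s` reach cycles.
(3) Let `F` be a set of integers which does not meet some cycle of integers of sign `s`. The integers whose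
orbits reach cycles which do not meet `F` have, among those of sign `s`, a positive frequency independently of
all additive functions. For all `d` and `κ > 0` and all large `N`, whenever `d` additive functions have values in
given intervals at `κ N` or more positive integers `n ≤ N`, the orbit of `s n` reaches such a cycle for one of
these `n`. There is `A` such that for all `q ≥ 1`, all `N ≥ A q ^ A` and all `r` there is an integer `n ≡ r`
modulo `q` of sign `s` with `N / 2 < |n| ≤ N` whose orbit reaches such a cycle, and `n` is a product of at most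
`A` primes if `r` is prime to `q`.
(4) Let `ψ` tend to `0` and let `1 ≤ q j ≤ 2 ^ (ψ j * j)`, and let `F` be a set of integers. Suppose that for
infinitely many `j` no orbit of an integer `x ≡ r j` modulo `q j` of sign `s` with
`2 ^ j < |x| ≤ 2 ^ (j + 1)`, all of whose prime factors that do not divide `q j` exceed `2 ^ (ψ j * j)`,
reaches a cycle which does not meet `F`. Then every cycle of integers of sign `s` meets `F`; in particular
there are only finitely many such cycles if `F` is finite. -/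
theorem result (s : ℤ) (hs : s = 1 ∨ s = -1) :
    (∃ (δ : ℤ → ℝ) (D : ℝ),
      (∀ a : ℤ, IsCycleRep s a → 0 < δ a ∧ HasDensity s {n | EndsIn {a} n} (δ a) ∧
        Independent s {n | EndsIn {a} n} (δ a) ∧
        (∀ (q : ℕ) (b : ℤ), 1 ≤ q →
          Independent s {n | ∃ k : ℕ, Visits a k n ∧ (k : ℤ) ≡ b [ZMOD q]} (δ a / q) ∧
          ∀ x : ℝ, Independent s {n | ∃ k : ℕ, Visits a k n ∧ (k : ℝ) ≤ bound x n ∧ (k : ℤ) ≡ b [ZMOD q]}
            (δ a * Phi x / q)) ∧
        (∀ η : ℝ, 0 < η → Independent s {n | ∃ k : ℕ, Visits a k n ∧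
          |(k : ℝ) - 2 / Real.log (4 / 3) * Real.log (|(n : ℝ)|)| ≤ η * Real.log |(n : ℝ)|} (δ a))) ∧
      HasSum (fun a : {a : ℤ // IsCycleRep s a} => δ a) D ∧
      HasDensity s {n | EndsIn Set.univ n} D ∧ Independent s {n | EndsIn Set.univ n} D ∧
      (D = 1 ↔ ∀ n : ℤ, 0 < s * n → EndsIn Set.univ n)) ∧
    (∀ F : Set ℤ, (∃ x : ℤ, 0 < s * x ∧ (∃ p : ℕ, 1 ≤ p ∧ T₃^[p] x = x) ∧ ∀ k, T₃^[k] x ∉ F) →
      (∃ D : ℝ, 0 < D ∧ HasDensity s {n | EndsIn Set.univ n ∧ ¬ EndsIn F n} D ∧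
        Independent s {n | EndsIn Set.univ n ∧ ¬ EndsIn F n} D) ∧
      (∀ (d : ℕ) (κ : ℝ), 0 < κ → ∃ N₀ : ℕ, ∀ N : ℕ, N₀ ≤ N →
        ∀ f : Fin d → ℕ → ℝ, (∀ j, Additive (f j)) → ∀ J : Fin d → Set ℝ, (∀ j, (J j).OrdConnected) →
        κ * N ≤ ({n : ℕ | 1 ≤ n ∧ n ≤ N ∧ ∀ j, f j n ∈ J j}.ncard : ℝ) →
        ∃ n : ℕ, 1 ≤ n ∧ n ≤ N ∧ (∀ j, f j n ∈ J j) ∧ EndsIn Set.univ (s * (n : ℤ)) ∧ ¬ EndsIn F (s * (n : ℤ))) ∧
      ∃ A : ℕ, ∀ q : ℕ, 1 ≤ q → ∀ N : ℕ, A * q ^ A ≤ N → ∀ r : ℤ, ∃ n : ℤ,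
        (N : ℤ) < 2 * (s * n) ∧ s * n ≤ N ∧ n ≡ r [ZMOD q] ∧ EndsIn Set.univ n ∧ ¬ EndsIn F n ∧
        (IsCoprime r q → ArithmeticFunction.cardFactors n.natAbs ≤ A)) ∧
    (∀ (ψ : ℕ → ℝ) (q : ℕ → ℕ) (r : ℕ → ℤ) (F : Set ℤ), Tendsto ψ atTop (𝓝 0) →
      (∀ j, 1 ≤ q j ∧ (q j : ℝ) ≤ (2 : ℝ) ^ (ψ j * j)) →
      (∃ᶠ j in atTop, ∀ x : ℤ, (2 : ℤ) ^ j < s * x → s * x ≤ 2 ^ (j + 1) → x ≡ r j [ZMOD q j] →
        (∀ p : ℕ, p.Prime → (p : ℤ) ∣ x → ¬ p ∣ q j → (2 : ℝ) ^ (ψ j * j) < p) →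
        EndsIn Set.univ x → EndsIn F x) →
      (∀ x : ℤ, 0 < s * x → (∃ p : ℕ, 1 ≤ p ∧ T₃^[p] x = x) → ∃ k, T₃^[k] x ∈ F) ∧
      (F.Finite → {x : ℤ | 0 < s * x ∧ ∃ p : ℕ, 1 ≤ p ∧ T₃^[p] x = x}.Finite)) := by
  refine ⟨?_, fun F hF => ?_, fun ψ q r F hψ hq hfreq => ?_⟩
  · obtain ⟨w, β, hw, hw0, hmer, -, hsum⟩ := Pool.Agent.H723R2.LSW.main hs
    have hmerD : ∀ a : ℤ, 0 < s * a → HasDensity s {n | Mer n a} (β a) := by
      intro a ha
      have e : {n : ℤ | ∃ i j : ℕ, Pool.Agent.H723R2.LSW.f₀^[i] (n : ℂ) = Pool.Agent.H723R2.LSW.f₀^[j] (a : ℂ)} =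
          {n | Mer n a} := by
        ext n
        constructor
        · rintro ⟨i, j, h⟩
          rw [Pool.Agent.H723R2.LSW.f₀_iter, Pool.Agent.H723R2.LSW.f₀_iter] at h
          exact ⟨i, j, by exact_mod_cast h⟩
        · rintro ⟨i, j, h⟩
          exact ⟨i, j, by rw [Pool.Agent.H723R2.LSW.f₀_iter, Pool.Agent.H723R2.LSW.f₀_iter, h]⟩
      rw [← e]
      exact (hmer a ha).2
    have hset : ∀ a : ℤ, IsCycleRep s a → {n | EndsIn {a} n} = {n | Mer n a} := by
      intro a ha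
      ext n
      show EndsIn {a} n ↔ Mer n a
      rw [endsIn_single ha.2.1, mer_reach ha.2.1]
    have hwset : {n : ℤ | EndsIn Set.univ n} = {n : ℤ | Pool.Agent.H384R2.Fatou.IsWanderingDomain
        Pool.Agent.H723R2.LSW.f₀ (Pool.Agent.H384R2.Fatou.FatouComponent Pool.Agent.H723R2.LSW.f₀ n)}ᶜ := by
      ext n
      show EndsIn Set.univ n ↔ ¬ Pool.Agent.H384R2.Fatou.IsWanderingDomain _ _
      rw [Pool.Agent.H723R2.LSW.wandering_iff, wild_iff, not_not]
    obtain ⟨D, hD, -, -⟩ := dens_inv hs (S := {n | EndsIn Set.univ n}) (fun n => endsIn_T _ n)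
    have hDw : D = 1 - w := by
      have h1 : HasDensity s Set.univ (D + w) := by
        unfold HasDensity
        refine (hD.add hw).congr fun N => ?_
        have hf : ∀ S : Set ℤ, {n : ℤ | 0 < s * n ∧ s * n ≤ N ∧ n ∈ S}.Finite := fun S =>
          (Set.finite_Icc (-(N : ℤ)) N).subset fun n hn => by
            obtain ⟨h1, h2, _⟩ := hn
            rw [Set.mem_Icc]
            rcases hs with rfl | rfl <;> constructor <;> omega
        rw [← add_div, ← Nat.cast_add, ← Set.ncard_union_eq (hs := hf _) (ht := hf _)]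
        · congr 3
          ext n
          have := Set.ext_iff.1 hwset n
          simp only [Set.mem_ofPred_eq, Set.mem_union, Set.mem_compl_iff, Set.mem_univ, and_true] at this ⊢
          tauto
        · rw [Set.disjoint_left]
          rintro n ⟨_, _, h1⟩ ⟨_, _, h2⟩
          have := Set.ext_iff.1 hwset n
          exact (this.1 h1) h2
      have h2 : HasDensity s Set.univ 1 := by
        unfold HasDensity
        have h3 : Tendsto (fun _ : ℕ => (1 : ℝ)) atTop (𝓝 1) := tendsto_const_nhds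
        refine h3.congr' ?_
        filter_upwards [eventually_ge_atTop 1] with N hN
        have hN' : (N : ℝ) ≠ 0 := by exact_mod_cast (by omega : N ≠ 0)
        have e : {n : ℤ | 0 < s * n ∧ s * n ≤ (N : ℤ) ∧ n ∈ Set.univ} = (fun n : ℕ => s * (n : ℤ)) '' (Icc 1 N : Finset ℕ) := by
          ext n
          rw [Set.mem_image]
          constructor
          · rintro ⟨h1, h2, _⟩
            refine ⟨n.natAbs, by rw [mem_coe, mem_Icc]; rcases hs with rfl | rfl <;> constructor <;> omega, ?_⟩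
            rcases hs with rfl | rfl <;> omega
          · rintro ⟨m, hm, rfl⟩
            rw [mem_coe, mem_Icc] at hm
            refine ⟨?_, ?_, trivial⟩ <;> rcases hs with rfl | rfl <;> omega
        rw [e, Set.ncard_image_of_injective _ (fun a b hab => by
          have : s * (a : ℤ) = s * b := hab
          rcases hs with rfl | rfl <;> omega), Set.ncard_coe_finset, Nat.card_Icc, Nat.add_sub_cancel,
          div_self hN']
      have := tendsto_nhds_unique h1 h2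
      linarith
    refine ⟨β, D, fun a ha => ⟨(hmer a ha.1).1, ?_, ?_, visits_rel hs ha (hmerD a ha.1)⟩, ?_, hD,
      inv_rel hs (fun n => endsIn_T _ n) hD, ?_⟩
    · rw [hset a ha]; exact hmerD a ha.1
    · exact inv_rel hs (S := {n | EndsIn {a} n}) (fun n => endsIn_T _ n) (by
        rw [hset a ha]; exact hmerD a ha.1)
    · rw [hDw]
      have hrep : ∀ a : ℤ, IsCycleRep s a ↔ Pool.Agent.H723R2.LSW.IsCycleRep s a := by
        intro a
        unfold IsCycleRep Pool.Agent.H723R2.LSW.IsCycleRep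
        constructor
        · rintro ⟨h1, ⟨p, hp, h2⟩, h3⟩
          refine ⟨h1, ⟨p, hp, Pool.Agent.H723R2.LSW.cast_iter.2 h2⟩, fun j b hb => ?_⟩
          have := Pool.Agent.H723R2.LSW.cast_iter.1 hb
          rw [← this]
          exact h3 j
        · rintro ⟨h1, ⟨p, hp, h2⟩, h3⟩
          exact ⟨h1, ⟨p, hp, Pool.Agent.H723R2.LSW.cast_iter.1 h2⟩, fun j =>
            h3 j _ (Pool.Agent.H723R2.LSW.cast_iter.2 rfl)⟩
      exact (Equiv.subtypeEquivRight hrep).hasSum_iff.2 hsum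
    · rw [hDw]
      have h1 : (1 - w = 1) ↔ w = 0 := by constructor <;> intro h <;> linarith
      rw [h1, hw0]
      refine forall_congr' fun n => forall_congr' fun _ => ?_
      rw [Pool.Agent.H723R2.LSW.wandering_iff, wild_iff, not_not]
  · have hinv : ∀ n : ℤ, n ∈ {n : ℤ | EndsIn Set.univ n ∧ ¬ EndsIn F n} ↔
        T₃ n ∈ {n : ℤ | EndsIn Set.univ n ∧ ¬ EndsIn F n} := fun n =>
      and_congr (endsIn_T _ n) (not_congr (endsIn_T _ n))
    have hne : ∃ x ∈ {n : ℤ | EndsIn Set.univ n ∧ ¬ EndsIn F n}, 0 < s * x := by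
      obtain ⟨x, hx, ⟨p, hp, hpx⟩, hxF⟩ := hF
      refine ⟨x, ⟨⟨0, p, hp, by rw [Nat.zero_add]; exact hpx, trivial⟩, ?_⟩, hx⟩
      rintro ⟨k, _, _, _, hk⟩
      exact hxF k hk
    obtain ⟨D, hD, -, hD1⟩ := dens_inv hs hinv
    have hRA := RA_inv' hs hinv hD
    refine ⟨⟨D, hD1 hne, hD, inv_rel hs hinv hD⟩, fun d κ hκ => RA_hit hRA (hD1 hne) d hκ, ?_⟩
    obtain ⟨A, hA⟩ := (Pool.Agent.Results.MP_d02c56_nt.AlmostPrimesAllModuli.result.1 s hs).2.1 _ (inv_C hinv) hne
    refine ⟨A, fun q hq N hN r => ?_⟩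
    obtain ⟨n, h1, h2, h3, h4, h5⟩ := hA q hq N hN r
    exact ⟨n, h2, h3, h4, h1.1, h1.2, h5⟩
  · have hinv : ∀ n : ℤ, n ∈ {n : ℤ | EndsIn Set.univ n → EndsIn F n} ↔
        T₃ n ∈ {n : ℤ | EndsIn Set.univ n → EndsIn F n} := fun n =>
      imp_congr (endsIn_T _ n) (endsIn_T _ n)
    have h1 := (Pool.Agent.Results.MP_d02c56_nt.AlmostPrimesAllModuli.result.1 s hs).2.2 ψ q r hψ hq
      {n : ℤ | EndsIn Set.univ n → EndsIn F n} (inv_C hinv) hfreq
    have h2 : ∀ x : ℤ, 0 < s * x → (∃ p : ℕ, 1 ≤ p ∧ T₃^[p] x = x) → EndsIn F x := by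
      rintro x hx ⟨p, hp, hpx⟩
      exact h1 x hx ⟨0, p, hp, by rw [Nat.zero_add]; exact hpx, trivial⟩
    refine ⟨fun x hx hx2 => ?_, fun hfin => fin_per hfin h2⟩
    obtain ⟨k, _, _, _, hk⟩ := h2 x hx hx2
    exact ⟨k, hk⟩

end Pool.Agent.Results.MP_dee342_nt.AdditiveFunctions
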