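import Mathlib
import Pool.Agent.X3.NfaTqk
import Pool.Agent.X3.NfaComp

/-!
# Automatic complexity of the cycles of the maps `T_{a,b}`

Let `a` be an odd prime and `b` an odd integer. The parity word of a cycle of `T_{a,b}` with `N`
elements, read from any element, has automatic complexity at least `N exp (-C √(log N))`, and for
every `δ > 0` only finitely many cycles have a parity word that is within `c log N` errors accepted
by an automaton with at most `N ^ (1 - δ)` states and fewer than `exp (c (log N) ^ 2)` words of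
length `N`.
-/

set_option autoImplicit false

namespace Pool.Agent.Results.MP_dee342_nt.AutomaticComplexity

open Finset

/-- The map `T_{a,b}` on the integers: `(a x + b) / 2` for odd `x`, `x / 2` for even `x`. -/
def T (a b x : ℤ) : ℤ := if x % 2 = 0 then x / 2 else (a * x + b) / 2

/-- The parity of the `i`-th iterate of `x`. -/
def parity (a b x : ℤ) (i : ℕ) : ZMod 2 := (((T a b)^[i] x : ℤ) : ZMod 2)

/-- The word formed by the parities of `x, T x, …, T^(N-1) x`. -/
def parityWord (a b x : ℤ) (N : ℕ) : List (ZMod 2) := (List.range N).map (parity a b x)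

/-- The automatic complexity of a word: the least number of states of a nondeterministic finite
automaton that accepts `w` and no other word of the same length. -/
noncomputable def complexity (w : List (ZMod 2)) : ℕ :=
  sInf {q : ℕ | ∃ M : NFA (ZMod 2) (Fin q),
    ∀ v : List (ZMod 2), v.length = w.length → (v ∈ M.accepts ↔ v = w)}

/-- The number of words of length `N` accepted by the automaton. -/
noncomputable def numAccepted {q : ℕ} (M : NFA (ZMod 2) (Fin q)) (N : ℕ) : ℕ :=
  {w : List (ZMod 2) | w ∈ M.accepts ∧ w.length = N}.ncard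

/-- The number of the `i < N` with `w i ≠ parity a b x i`. -/
def numErrors (a b x : ℤ) (N : ℕ) (w : ℕ → ZMod 2) : ℕ :=
  ((range N).filter fun i => w i ≠ parity a b x i).card

/-- The period of `x` is `N` and, up to at most `c log N` errors, the parity word of `x` of length
`N` is accepted by a nondeterministic finite automaton that has at most `N ^ (1 - δ)` states and
accepts fewer than `exp (c (log N) ^ 2)` words of length `N`. -/
def Simple (a b : ℤ) (c δ : ℝ) (x : ℤ) (N : ℕ) : Prop :=
  Function.minimalPeriod (T a b) x = N ∧ 1 ≤ N ∧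
    ∃ (q : ℕ) (M : NFA (ZMod 2) (Fin q)) (w : ℕ → ZMod 2), (q : ℝ) ≤ (N : ℝ) ^ (1 - δ) ∧
      (List.range N).map w ∈ M.accepts ∧ (numErrors a b x N w : ℝ) ≤ c * Real.log N ∧
      (numAccepted M N : ℝ) < Real.exp (c * Real.log N ^ 2)

theorem comp_eq (w : List (ZMod 2)) : complexity w = Pool.Agent.X3.NfaComp.comp w := rfl

theorem T_eq (a b : ℤ) : T a b = Pool.Agent.X3.NfaTqk.T a b := rfl

theorem len (a b x : ℤ) (N : ℕ) : (parityWord a b x N).length = N := by simp [parityWord]

/-- Let `a` be an odd prime and `b` an odd integer.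

(1) There is `C` such that for every `x` whose period under `T_{a,b}` is `N ≥ 1` the parity word of
`x` of length `N` has automatic complexity at least `N exp (-C √(log N))` (and at most `N + 1`).

(2) For every `δ ∈ (0, 1]` there are `c > 0` and `N₁` such that for every periodic point `x` with
period `N ≥ N₁` every nondeterministic finite automaton with at most `N ^ (1 - δ)` states which
accepts a word of length `N` that differs from the parity word of `x` in at most `c log N` places
accepts at least `exp (c (log N) ^ 2)` words of length `N`.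

(3) For every `δ ∈ (0, 1]` there is `c > 0` such that there are only finitely many `x` which are
simple with the parameters `c` and `δ`. -/
theorem result (a : ℕ) (ha : a.Prime) (ha2 : a ≠ 2) (b : ℤ) (hb : b % 2 = 1) :
    (∃ C : ℝ, ∀ (x : ℤ) (N : ℕ), 1 ≤ N → Function.minimalPeriod (T a b) x = N →
      (N : ℝ) * Real.exp (-(C * Real.sqrt (Real.log N))) ≤ complexity (parityWord a b x N) ∧
      complexity (parityWord a b x N) ≤ N + 1) ∧
    (∀ δ : ℝ, 0 < δ → δ ≤ 1 → ∃ c : ℝ, 0 < c ∧ ∃ N₁ : ℕ, ∀ (x : ℤ) (N : ℕ), N₁ ≤ N →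
      Function.minimalPeriod (T a b) x = N →
      ∀ (q : ℕ) (M : NFA (ZMod 2) (Fin q)), (q : ℝ) ≤ (N : ℝ) ^ (1 - δ) →
      ∀ w : ℕ → ZMod 2, (numErrors a b x N w : ℝ) ≤ c * Real.log N →
        (List.range N).map w ∈ M.accepts → Real.exp (c * Real.log N ^ 2) ≤ numAccepted M N) ∧
    (∀ δ : ℝ, 0 < δ → δ ≤ 1 → ∃ c : ℝ, 0 < c ∧ {x : ℤ | ∃ N : ℕ, Simple a b c δ x N}.Finite) := by
  have hwords : ∀ δ : ℝ, 0 < δ → δ ≤ 1 → ∃ c : ℝ, 0 < c ∧ ∃ N₁ : ℕ, ∀ (x : ℤ) (N : ℕ), N₁ ≤ N →
      Function.minimalPeriod (T a b) x = N →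
      ∀ (q : ℕ) (M : NFA (ZMod 2) (Fin q)), (q : ℝ) ≤ (N : ℝ) ^ (1 - δ) →
      ∀ w : ℕ → ZMod 2, (numErrors a b x N w : ℝ) ≤ c * Real.log N →
        (List.range N).map w ∈ M.accepts → Real.exp (c * Real.log N ^ 2) ≤ numAccepted M N := by
    intro δ hδ hδ1
    obtain ⟨c, hc, N₁, h⟩ := Pool.Agent.X3.NfaTqk.cycle_words ha ha2 δ hδ hδ1
    refine ⟨c, hc, max (max N₁ 1) (⌈Real.log (|(b : ℝ)| + 2)⌉₊ ^ 3),
      fun x N hN hx q M hq w hk hacc => ?_⟩
    have hN1 : N₁ ≤ N := le_trans (le_max_left _ _) (le_trans (le_max_left _ _) hN)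
    have hN3 : ⌈Real.log (|(b : ℝ)| + 2)⌉₊ ^ 3 ≤ N := le_trans (le_max_right _ _) hN
    refine h b hb x N hN1 ?_ hx (Fin q) M (by rw [Fintype.card_fin]; exact hq) w hk hacc
    have e1 : (Real.log (|(b : ℝ)| + 2)) ≤ (⌈Real.log (|(b : ℝ)| + 2)⌉₊ : ℝ) := Nat.le_ceil _
    refine e1.trans ?_
    have e2 : ((⌈Real.log (|(b : ℝ)| + 2)⌉₊ : ℝ) ^ 3) ≤ N := by exact_mod_cast hN3
    have e3 := Real.rpow_le_rpow (by positivity) e2 (show (0 : ℝ) ≤ 1 / 3 by norm_num)
    rwa [← Real.rpow_natCast, ← Real.rpow_mul (by positivity),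
      show ((3 : ℕ) : ℝ) * (1 / 3) = 1 by norm_num, Real.rpow_one] at e3
  refine ⟨?_, hwords, ?_⟩
  · obtain ⟨C, hC, h⟩ := Pool.Agent.X3.NfaTqk.cycle_states ha ha2
    have hlb : 0 < Real.log (|(b : ℝ)| + 2) := Real.log_pos (by
      have := abs_nonneg (b : ℝ)
      linarith)
    obtain ⟨ℓ, hℓ⟩ : ∃ ℓ, ℓ = Real.log (|(b : ℝ)| + 2) := ⟨_, rfl⟩
    rw [← hℓ] at hlb
    refine ⟨C + 2 * ℓ + 2, fun x N hN hx => ⟨?_, ?_⟩⟩
    · obtain ⟨M, hM⟩ := Pool.Agent.X3.NfaComp.comp_spec (parityWord a b x N)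
      rw [len] at hM
      have h1 := h b hb x N hN hx _ M ((hM _ (len a b x N)).2 rfl)
        (fun v hv hvN => (hM v hvN).1 hv)
      rw [Fintype.card_fin, ← comp_eq, ← hℓ] at h1
      have hcp : (1 : ℝ) ≤ complexity (parityWord a b x N) := by
        exact_mod_cast Pool.Agent.X3.NfaComp.comp_pos (parityWord a b x N)
      rcases Nat.lt_or_ge N 2 with hN2 | hN2
      · have : N = 1 := by omega
        subst this
        simpa using hcp
      refine le_trans ?_ h1
      have hNR : (2 : ℝ) ≤ N := by exact_mod_cast hN2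
      obtain ⟨t, ht⟩ : ∃ t, t = Real.sqrt (Real.log N) := ⟨_, rfl⟩
      rw [← ht]
      have ht8 : 0.8 ≤ t := by
        rw [ht]
        apply Real.le_sqrt_of_sq_le
        have h2 : Real.log 2 ≤ Real.log N := Real.log_le_log (by norm_num) hNR
        have h3 := Real.log_two_gt_d9
        linarith
      have h4 : ℓ ≤ Real.exp ((2 * ℓ + 2) * t) := by
        have h5 := Real.add_one_le_exp ((2 * ℓ + 2) * t)
        nlinarith
      have h5 : (N : ℝ) * Real.exp (-((C + 2 * ℓ + 2) * t)) =
          (N : ℝ) / Real.exp ((2 * ℓ + 2) * t) * Real.exp (-(C * t)) := by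
        rw [div_mul_eq_mul_div, mul_div_assoc, ← Real.exp_sub]
        ring_nf
      rw [h5]
      apply mul_le_mul_of_nonneg_right _ (Real.exp_pos _).le
      exact div_le_div_of_nonneg_left (by linarith) hlb h4
    · have := Pool.Agent.X3.NfaComp.comp_le (parityWord a b x N)
      rwa [len] at this
  · intro δ hδ hδ1
    obtain ⟨c, hc, N₁, h⟩ := hwords δ hδ hδ1
    refine ⟨c, hc, ?_⟩
    have hfin : (⋃ p ∈ Finset.Icc 1 N₁,
        {x : ℤ | (Pool.Agent.H547R3.Sub.Tm a b)^[p] x = x}).Finite := by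
      apply Set.Finite.biUnion (Finset.finite_toSet _)
      intro p hp
      exact Pool.Agent.H547R3.Sub.finite_per ha ha2 b hb p
        (Finset.mem_Icc.1 (Finset.mem_coe.1 hp)).1
    refine hfin.subset ?_
    rintro x ⟨N, h1, hN1, q, M, w, h2, h3, h4, h5⟩
    have hN : N < N₁ := by
      by_contra hcon
      push Not at hcon
      have := h x N hcon h1 q M h2 w h4 h3
      linarith
    simp only [Set.mem_iUnion]
    refine ⟨N, Finset.mem_coe.2 (Finset.mem_Icc.2 ⟨hN1, hN.le⟩), ?_⟩
    show (T a b)^[N] x = x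
    rw [← h1]
    exact Function.iterate_minimalPeriod

end Pool.Agent.Results.MP_dee342_nt.AutomaticComplexity
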