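import Mathlib
import Pool.Agent.X42.Lens3

set_option autoImplicit false

/-!
# The lengths of the cycles of the maps `T_{a,b}` on the integers

For all odd `a ≥ 3` (in particular for the `5x+1` map) and all odd `b` at most `A P exp (-c √(log P))`
of the numbers `1, ..., P` are lengths of cycles of `T_{a,b}` on the integers, and in every interval
`[u, u + H)` there are at most `A (H exp (-c √(log H)) + exp (c √(log H)) (1 + log (u + H)))` lengths;
`c > 0` depends on `a` only.
-/

namespace Pool.Agent.Results.MP_dee342_nt.CycleLengthsAllMultipliers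

open Finset

/-- the map `T_{a,b}` on the integers -/
def T (a b x : ℤ) : ℤ := if x % 2 = 0 then x / 2 else (a * x + b) / 2

/-- the periodic orbits (cycles) of a map on the integers, as finite sets:
`{x, f x, ..., f^(p-1) x}` with `p ≥ 1` and `f^p x = x` -/
def IsCycle (f : ℤ → ℤ) (c : Finset ℤ) : Prop :=
  ∃ x : ℤ, ∃ p : ℕ, 1 ≤ p ∧ f^[p] x = x ∧ c = (range p).image (fun j => f^[j] x)

/-- the exponent of `a` in one step -/
def ex (x : ℤ) : ℕ := if x % 2 = 1 then 1 else 0

theorem model (a b : ℤ) (ha : a % 2 = 1) (ha3 : 3 ≤ a) (hb : b % 2 = 1) :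
    Pool.Agent.H446R2.CS.Model (T a b) 2 a.toNat ex |(b : ℝ)| where
  hd := by norm_num
  hβ := by omega
  bd := by
    intro x
    have hta : ((a.toNat : ℕ) : ℤ) = a := Int.toNat_of_nonneg (by omega)
    rw [hta]
    rcases Int.emod_two_eq_zero_or_one x with h | h
    · have h1 : (2 : ℤ) * T a b x = x := by
        unfold T
        rw [if_pos h]
        omega
      have h2 : ex x = 0 := by
        unfold ex
        rw [if_neg (by omega)]
      rw [h2, pow_zero, one_mul]
      have h3 : (((2 : ℕ) : ℤ) * T a b x) = x := by exact_mod_cast h1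
      rw [h3, sub_self, abs_zero]
      exact abs_nonneg _
    · have h1 : (2 : ℤ) * T a b x = a * x + b := by
        unfold T
        rw [if_neg (by omega)]
        have h4 : (a * x + b) % 2 = 0 := by
          rw [Int.add_emod, Int.mul_emod, ha, h, hb]
          norm_num
        omega
      have h2 : ex x = 1 := by
        unfold ex
        rw [if_pos h]
      rw [h2, pow_one]
      have h3 : (((2 : ℕ) : ℤ) * T a b x) = a * x + b := by exact_mod_cast h1
      rw [h3]
      push_cast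
      rw [add_sub_cancel_left]

/-- the comparison used for `u = 0` -/
theorem compare {c y : ℝ} : Real.exp (c * y) * (1 + y ^ 2) ≤
    2 * Real.exp (2 * c ^ 2) * (Real.exp (y ^ 2) * Real.exp (-(c * y))) := by
  have h1 : 1 + y ^ 2 ≤ 2 * Real.exp (y ^ 2 / 2) := by
    have := Real.add_one_le_exp (y ^ 2 / 2)
    linarith
  have h2 : Real.exp (c * y) * Real.exp (y ^ 2 / 2) ≤
      Real.exp (2 * c ^ 2) * (Real.exp (y ^ 2) * Real.exp (-(c * y))) := by
    rw [← Real.exp_add, ← Real.exp_add, ← Real.exp_add]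
    apply Real.exp_le_exp.2
    nlinarith [sq_nonneg (y - 2 * c)]
  calc Real.exp (c * y) * (1 + y ^ 2) ≤ Real.exp (c * y) * (2 * Real.exp (y ^ 2 / 2)) :=
        mul_le_mul_of_nonneg_left h1 (Real.exp_pos _).le
    _ = 2 * (Real.exp (c * y) * Real.exp (y ^ 2 / 2)) := by ring
    _ ≤ 2 * (Real.exp (2 * c ^ 2) * (Real.exp (y ^ 2) * Real.exp (-(c * y)))) := by linarith
    _ = _ := by ring

/-- For every odd `a ≥ 3` there is `c > 0` such that for every odd `b` there is `A` with: at most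
`A P exp (-c √(log P))` numbers `p ≤ P` are numbers of elements of cycles of `T_{a,b}` on the
integers, for all `P ≥ 1`, and at most `A (H exp (-c √(log H)) + exp (c √(log H)) (1 + log (u + H)))`
numbers `p` with `u ≤ p < u + H`, for all `u ≥ 0` and `H ≥ 1`. -/
theorem result (a : ℤ) (ha : a % 2 = 1) (ha3 : 3 ≤ a) :
    ∃ c : ℝ, 0 < c ∧ ∀ b : ℤ, b % 2 = 1 → ∃ A : ℝ, 0 < A ∧
      (∀ P : ℕ, 1 ≤ P →
        (Set.ncard {p : ℕ | p ≤ P ∧ ∃ Z : Finset ℤ, IsCycle (T a b) Z ∧ Z.card = p} : ℝ) ≤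
          A * (P * Real.exp (-(c * √(Real.log P))))) ∧
      ∀ u H : ℕ, 1 ≤ H →
        (Set.ncard {p : ℕ | u ≤ p ∧ p < u + H ∧
            ∃ Z : Finset ℤ, IsCycle (T a b) Z ∧ Z.card = p} : ℝ) ≤
          A * (H * Real.exp (-(c * √(Real.log H))) +
            Real.exp (c * √(Real.log H)) * (1 + Real.log (u + H))) := by
  have hcop : Nat.Coprime a.toNat 2 := by
    rw [Nat.coprime_comm, Nat.Prime.coprime_iff_not_dvd Nat.prime_two]
    omega
  obtain ⟨c, hc0, h⟩ := Pool.Agent.X42.Lens.model_lengths (d := 2) (β := a.toNat) le_rfl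
    (by omega) hcop
  refine ⟨c, hc0, fun b hb => ?_⟩
  obtain ⟨A, hA, h⟩ := h (T a b) ex _ (model a b ha ha3 hb)
  have key : ∀ u H : ℕ, 1 ≤ H →
      (Set.ncard {p : ℕ | u ≤ p ∧ p < u + H ∧
          ∃ Z : Finset ℤ, IsCycle (T a b) Z ∧ Z.card = p} : ℝ) ≤
        A * (H * Real.exp (-(c * √(Real.log H))) +
          Real.exp (c * √(Real.log H)) * (1 + Real.log (u + H))) := by
    intro u H hH
    have hfin : {p : ℕ | u ≤ p ∧ p < u + H ∧
        ∃ Z : Finset ℤ, IsCycle (T a b) Z ∧ Z.card = p}.Finite :=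
      (Set.finite_Ico u (u + H)).subset fun p hp => ⟨hp.1, hp.2.1⟩
    rw [Set.ncard_eq_toFinset_card _ hfin]
    apply h u H hH
    intro p hp
    rw [Set.Finite.mem_toFinset] at hp
    exact hp
  refine ⟨2 * Real.exp (2 * c ^ 2) + A * (1 + 2 * Real.exp (2 * c ^ 2)), by positivity, ?_, ?_⟩
  · intro P hP
    have hPr : (1 : ℝ) ≤ P := by exact_mod_cast hP
    have hlP : 0 ≤ Real.log P := Real.log_nonneg hPr
    have hfin : {p : ℕ | 1 ≤ p ∧ p < 1 + P ∧
        ∃ Z : Finset ℤ, IsCycle (T a b) Z ∧ Z.card = p}.Finite :=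
      (Set.finite_Ico 1 (1 + P)).subset fun p hp => ⟨hp.1, hp.2.1⟩
    have h0 := key 0 P hP
    set y : ℝ := √(Real.log P) with hy
    have hy2 : y ^ 2 = Real.log P := Real.sq_sqrt hlP
    have hP' : (P : ℝ) = Real.exp (y ^ 2) := by rw [hy2, Real.exp_log (by linarith)]
    -- the element `P` itself
    have hsub : {p : ℕ | p ≤ P ∧ ∃ Z : Finset ℤ, IsCycle (T a b) Z ∧ Z.card = p} ⊆
        insert P {p : ℕ | 0 ≤ p ∧ p < 0 + P ∧ ∃ Z : Finset ℤ, IsCycle (T a b) Z ∧ Z.card = p} := by
      rintro p ⟨h1, h2⟩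
      rcases Nat.lt_or_ge p P with h3 | h3
      · exact Set.mem_insert_of_mem _ ⟨Nat.zero_le _, by omega, h2⟩
      · have : p = P := by omega
        rw [this]; exact Set.mem_insert _ _
    have hfin0 : {p : ℕ | 0 ≤ p ∧ p < 0 + P ∧
        ∃ Z : Finset ℤ, IsCycle (T a b) Z ∧ Z.card = p}.Finite :=
      (Set.finite_Ico 0 (0 + P)).subset fun p hp => ⟨hp.1, hp.2.1⟩
    have h1 := (Set.ncard_le_ncard hsub (hfin0.insert P)).trans (Set.ncard_insert_le _ _)
    have h2 : (Set.ncard {p : ℕ | p ≤ P ∧ ∃ Z : Finset ℤ, IsCycle (T a b) Z ∧ Z.card = p} : ℝ) ≤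
        (Set.ncard {p : ℕ | 0 ≤ p ∧ p < 0 + P ∧
          ∃ Z : Finset ℤ, IsCycle (T a b) Z ∧ Z.card = p} : ℝ) + 1 := by exact_mod_cast h1
    have hcmp := compare (c := c) (y := y)
    rw [← hP', hy2] at hcmp
    have hz : Real.log (((0 : ℕ) : ℝ) + P) = Real.log P := by rw [Nat.cast_zero, zero_add]
    rw [hz] at h0
    have hone : 1 ≤ 2 * Real.exp (2 * c ^ 2) * (P * Real.exp (-(c * y))) := by
      refine le_trans ?_ hcmp
      have h3 : 1 ≤ Real.exp (c * y) := by rw [Real.one_le_exp_iff]; positivity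
      nlinarith
    have hD : 0 < (P : ℝ) * Real.exp (-(c * y)) := by positivity
    have h3 : A * (Real.exp (c * y) * (1 + Real.log P)) ≤
        A * (2 * Real.exp (2 * c ^ 2) * (P * Real.exp (-(c * y)))) :=
      mul_le_mul_of_nonneg_left hcmp hA.le
    calc _ ≤ _ := h2
      _ ≤ A * (P * Real.exp (-(c * y)) + Real.exp (c * y) * (1 + Real.log P)) + 1 := by linarith
      _ ≤ _ := by nlinarith
  · intro u H hH
    refine (key u H hH).trans ?_
    have h1 : 0 ≤ Real.log ((u : ℝ) + H) := by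
      apply Real.log_nonneg
      have : (1 : ℝ) ≤ H := by exact_mod_cast hH
      have : (0 : ℝ) ≤ u := Nat.cast_nonneg u
      linarith
    have h2 : 0 ≤ (H * Real.exp (-(c * √(Real.log H))) +
        Real.exp (c * √(Real.log H)) * (1 + Real.log (u + H))) := by positivity
    apply mul_le_mul_of_nonneg_right _ h2
    have h3 : 0 < Real.exp (2 * c ^ 2) := Real.exp_pos _
    nlinarith

end Pool.Agent.Results.MP_dee342_nt.CycleLengthsAllMultipliers
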