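import Mathlib
import Pool.Agent.X61.RT.Odd

/-!
# The radicals of the elements of the cycles of the `ax+b` maps

`a ≥ 1`, `b` odd. Let `E` be a finite union of cycles of `T_{a,b}`. All odd elements `y` of `E`,
except `O (|E| / log |E|)` of them, satisfy `rad(b) rad(y) > |E| ^ (1 - ε)`, with a constant which
depends on `a` and `ε` only.
-/

set_option autoImplicit false

namespace Pool.Agent.Results.MP_dee342_nt.RadicalsInCycles

open Finset

/-- The map `T_{a,b}`. -/
def T (a b x : ℤ) : ℤ := if x % 2 = 0 then x / 2 else (a * x + b) / 2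

/-- The radical: the product of the primes dividing `n`. -/
def radical (n : ℤ) : ℕ := ∏ p ∈ n.natAbs.primeFactors, p

/-- **Radicals in cycles.** For every odd `a ≥ 1` and `ε > 0` there is `C` such that for all odd `b`
and every finite set `E` of at least two integers with `T_{a,b} (E) = E` (a union of cycles), at
most `C |E| / log |E|` of the elements `y` of `E` are odd and satisfy
`rad(b) rad(y) ≤ |E| ^ (1 - ε)`. -/
theorem result : ∀ a : ℤ, a % 2 = 1 → 1 ≤ a → ∀ ε : ℝ, 0 < ε → ∃ C : ℝ, 0 < C ∧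
    ∀ (b : ℤ) (E : Finset ℤ), b % 2 = 1 → 2 ≤ E.card → E.image (T a b) = E →
      ((E.filter fun y => y % 2 = 1 ∧
        (radical b : ℝ) * (radical y : ℝ) ≤ (E.card : ℝ) ^ (1 - ε)).card : ℝ) ≤
          C * (E.card / Real.log E.card) := by
  classical
  intro a ha ha1 ε hε
  obtain ⟨L, hL⟩ : ∃ L : ℕ, a + 2 ≤ L ∧ 2 ≤ L := by
    obtain ⟨n, hn⟩ := Int.eq_ofNat_of_zero_le (by omega : 0 ≤ a)
    exact ⟨n + 2, by rw [hn]; push_cast; exact le_rfl, by omega⟩
  obtain ⟨C, hC, hmain⟩ := Pool.Agent.X61.RT.rare (min ε (1 / 2)) (by positivity)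
    (lt_of_le_of_lt (min_le_right _ _) (by norm_num)) L hL.2
  refine ⟨C, hC, ?_⟩
  intro b E hb hN hE
  have hT : T a b = Pool.Agent.X61.RT.Ta a b := rfl
  rw [hT] at hE
  set f := Pool.Agent.X61.RT.Ta a b with hf
  have hN1 : (1 : ℝ) ≤ E.card := by exact_mod_cast (by omega : 1 ≤ E.card)
  have hmaps : Set.MapsTo f (E : Set ℤ) E := by
    intro x hx
    have : f x ∈ E.image f := Finset.mem_image_of_mem f hx
    rw [hE] at this
    exact this
  have hinj : Set.InjOn f (E : Set ℤ) := by
    rw [← Finset.card_image_iff, hE]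
  have hit : ∀ x ∈ E, ∀ j, f^[j] x ∈ E := by
    intro x hx j
    induction j with
    | zero => exact hx
    | succ j ih => rw [Function.iterate_succ_apply']; exact hmaps ih
  refine hmain f (fun x => x) (E : Set ℤ) b E.card _ hmaps hinj
    (by intro h; rw [h] at hb; omega) hN (fun x hx => (Finset.mem_filter.1 hx).1) ?_ ?_ ?_ ?_
  · intro x hx
    obtain ⟨h1, h2, h3⟩ := Finset.mem_filter.1 hx
    refine ⟨fun h => by rw [h] at h2; omega, ?_⟩
    refine le_trans (b := (E.card : ℝ) ^ (1 - ε)) h3 ?_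
    exact Real.rpow_le_rpow_of_exponent_le hN1 (by linarith [min_le_left ε (1 / 2)])
  · intro x _ y _ h
    exact h
  · intro x hx j hj1 hj2
    obtain ⟨-, h2, -⟩ := Finset.mem_filter.1 hx
    exact Pool.Agent.X61.RT.Ta_rel (a := a) (k := b) ha hb ha1 (x := x) (by omega) L hL.1 hj1
  · intro J
    refine ⟨E, by omega, ?_⟩
    intro x hx j hj
    exact hit x (Finset.mem_filter.1 hx).1 j

end Pool.Agent.Results.MP_dee342_nt.RadicalsInCycles
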